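import Mathlib

open Polynomial Finset

namespace Pool.Agent.Results.MP_aa6a81_co.OuterplanarTwo

/-! ### Definitions used in the statement -/

/-- The set of edge lengths of the (straight-line, degenerate) drawing of `G` that puts the vertex
`v` at the point `p v` of the Euclidean plane. -/
def edgeLengths {V : Type*} (G : SimpleGraph V) (p : V → EuclideanSpace ℝ (Fin 2)) : Set ℝ :=
  {d | ∃ v w : V, G.Adj v w ∧ d = dist (p v) (p w)}

/-- The degenerate distance number of `G`: the least `k` such that some injective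
`p : V → ℝ²` has at most `k` distinct edge lengths. -/
noncomputable def ddn {V : Type*} (G : SimpleGraph V) : ℕ :=
  sInf {k : ℕ | ∃ p : V → EuclideanSpace ℝ (Fin 2), Function.Injective p ∧
    (edgeLengths G p).encard ≤ k}

/-- `G` is outerplanar: it has a crossing-free drawing with its vertices at distinct points of the
unit circle and its edges drawn as straight chords (edges without a common endpoint are
disjoint). -/
def IsOuterplanar {V : Type*} (G : SimpleGraph V) : Prop :=
  ∃ c : V → EuclideanSpace ℝ (Fin 2), Function.Injective c ∧ (∀ v, ‖c v‖ = 1) ∧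
    ∀ a b x y : V, G.Adj a b → G.Adj x y → a ≠ x → a ≠ y → b ≠ x → b ≠ y →
      Disjoint (segment ℝ (c a) (c b)) (segment ℝ (c x) (c y))

/-! ### The twisted lexicographic order on `ℤ[X]` -/

/-- `(-1)` to the sum of the first `m` coefficients. -/
def sgn (A : ℤ[X]) (m : ℕ) : ℤ := if Even (∑ i ∈ range m, A.coeff i) then 1 else -1

lemma sgn_sq (A : ℤ[X]) (m : ℕ) : sgn A m * sgn A m = 1 := by
  unfold sgn; split_ifs <;> norm_num

lemma sgn_cases (A : ℤ[X]) (m : ℕ) : sgn A m = 1 ∨ sgn A m = -1 := by
  unfold sgn; split_ifs <;> simp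

lemma sgn_congr {A B : ℤ[X]} {m : ℕ} (h : ∀ i < m, A.coeff i = B.coeff i) :
    sgn A m = sgn B m := by
  unfold sgn
  rw [Finset.sum_congr rfl (fun i hi => h i (Finset.mem_range.mp hi))]

lemma sgn_succ_add_one {A B : ℤ[X]} {m : ℕ} (h : ∀ i < m, A.coeff i = B.coeff i) {s : ℤ}
    (hs : s = 1 ∨ s = -1) (hm : B.coeff m = A.coeff m + s) : sgn B (m + 1) = - sgn A (m + 1) := by
  unfold sgn
  rw [Finset.sum_range_succ, Finset.sum_range_succ,
    ← Finset.sum_congr rfl (fun i hi => h i (Finset.mem_range.mp hi)), hm, ← add_assoc]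
  have : Even ((∑ i ∈ range m, A.coeff i) + A.coeff m + s) ↔
      ¬ Even ((∑ i ∈ range m, A.coeff i) + A.coeff m) := by
    rw [Int.even_add]
    have : ¬ Even s := by rcases hs with rfl | rfl <;> decide
    tauto
  by_cases h : Even ((∑ i ∈ range m, A.coeff i) + A.coeff m)
  · rw [if_neg (by rw [this]; exact fun h' => h' h), if_pos h]
  · rw [if_pos (by rw [this]; exact h), if_neg h]; norm_num

/-- The twisted lexicographic (strict) order. -/
def Prec (A B : ℤ[X]) : Prop :=
  ∃ m, (∀ i < m, A.coeff i = B.coeff i) ∧ 0 < sgn A m * (B.coeff m - A.coeff m)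

lemma prec_irrefl (A : ℤ[X]) : ¬ Prec A A := by
  rintro ⟨m, _, h⟩
  simp at h

lemma prec_trans {A B C : ℤ[X]} (h1 : Prec A B) (h2 : Prec B C) : Prec A C := by
  obtain ⟨m, hm, hm'⟩ := h1
  obtain ⟨l, hl, hl'⟩ := h2
  rcases lt_trichotomy m l with h | h | h
  · refine ⟨m, fun i hi => (hm i hi).trans (hl i (hi.trans h)), ?_⟩
    rw [← hl m h]; exact hm'
  · subst h
    refine ⟨m, fun i hi => (hm i hi).trans (hl i hi), ?_⟩
    rw [← sgn_congr hm] at hl'
    have : sgn A m * (C.coeff m - A.coeff m) =
      sgn A m * (B.coeff m - A.coeff m) + sgn A m * (C.coeff m - B.coeff m) := by ring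
    rw [this]
    exact add_pos hm' hl'
  · refine ⟨l, fun i hi => (hm i (hi.trans h)).trans (hl i hi), ?_⟩
    rw [hm l h, sgn_congr (fun i hi => hm i (hi.trans h))]
    exact hl'

/-- Differences of unit type. -/
def UT (D : ℤ[X]) : Prop := ∃ (k : ℕ) (s : ℤ), (s = 1 ∨ s = -1) ∧ D = C s * X ^ k

/-- Differences of the second type. -/
def RT (D : ℤ[X]) : Prop := ∃ (k : ℕ) (s : ℤ), (s = 1 ∨ s = -1) ∧ D = C s * X ^ k * (1 - X)

/-- Admissible pairs. -/
def E (A B : ℤ[X]) : Prop := Prec A B ∧ (UT (B - A) ∨ RT (B - A))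

lemma coeff_mono (s : ℤ) (k i : ℕ) : (C s * X ^ k : ℤ[X]).coeff i = if i = k then s else 0 := by
  rw [coeff_C_mul, coeff_X_pow]; split_ifs <;> simp

/-- Adding `s X^k` moves up iff `s = sgn`. -/
lemma prec_add {A : ℤ[X]} {k : ℕ} {s : ℤ} (h : sgn A k = s) (hs : s = 1 ∨ s = -1) :
    Prec A (A + C s * X ^ k) := by
  refine ⟨k, ?_, ?_⟩
  · intro i hi
    rw [coeff_add, coeff_mono, if_neg hi.ne, add_zero]
  · rw [coeff_add, coeff_mono, if_pos rfl, h]
    rcases hs with rfl | rfl <;> norm_num

lemma sgn_of_prec {A D : ℤ[X]} {k : ℕ} {s : ℤ} (hs : s = 1 ∨ s = -1)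
    (hlow : ∀ i < k, D.coeff i = 0) (hk : D.coeff k = s) (h : Prec A (A + D)) : sgn A k = s := by
  obtain ⟨m, hm, hm'⟩ := h
  have h1 : m = k := by
    rcases lt_trichotomy m k with h | h | h
    · exfalso
      rw [coeff_add, hlow m h] at hm'
      simp at hm'
    · exact h
    · exfalso
      have := hm k h
      rw [coeff_add, hk] at this
      rcases hs with rfl | rfl <;> omega
  subst h1
  rw [coeff_add, hk] at hm'
  rcases sgn_cases A m with h | h <;> rcases hs with rfl | rfl <;> simp_all

lemma between_U {A B : ℤ[X]} (hP : Prec A B) (hU : UT (B - A)) : ∃ P, E A P ∧ E P B := by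
  obtain ⟨k, s, hs, hD⟩ := hU
  have hB : B = A + C s * X ^ k := by rw [← hD]; ring
  have hsk : sgn A k = s := by
    rw [hB] at hP
    exact sgn_of_prec hs (fun i hi => by rw [coeff_mono, if_neg hi.ne])
      (by rw [coeff_mono, if_pos rfl]) hP
  have hs' : (-s) = 1 ∨ (-s) = -1 := by rcases hs with rfl | rfl <;> simp
  have hBs : sgn B (k + 1) = - sgn A (k + 1) :=
    sgn_succ_add_one (A := A) (B := B) (m := k)
      (fun i hi => by rw [hB, coeff_add, coeff_mono, if_neg hi.ne, add_zero]) hs
      (by rw [hB, coeff_add, coeff_mono, if_pos rfl])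
  have hcase : sgn A (k + 1) = s ∨ sgn A (k + 1) = -s := by
    rcases sgn_cases A (k + 1) with h | h <;> rcases hs with rfl | rfl <;> simp [h]
  rcases hcase with h | h
  · refine ⟨A + C s * X ^ (k + 1), ⟨prec_add h hs, Or.inl ⟨k + 1, s, hs, by ring⟩⟩, ⟨?_, ?_⟩⟩
    · refine ⟨k, ?_, ?_⟩
      · intro i hi
        rw [hB, coeff_add, coeff_add, coeff_mono, coeff_mono, if_neg (by omega), if_neg hi.ne]
      · have h1 : sgn (A + C s * X ^ (k + 1)) k = sgn A k := by
          apply sgn_congr
          intro i hi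
          rw [coeff_add, coeff_mono, if_neg (by omega), add_zero]
        rw [h1, hsk, hB, coeff_add, coeff_add, coeff_mono, coeff_mono, if_pos rfl,
          if_neg (by omega)]
        rcases hs with rfl | rfl <;> norm_num
    · right
      exact ⟨k, s, hs, by rw [hB]; ring⟩
  · refine ⟨B - C s * X ^ (k + 1), ⟨?_, ?_⟩, ⟨?_, ?_⟩⟩
    · refine ⟨k, ?_, ?_⟩
      · intro i hi
        rw [hB, coeff_sub, coeff_add, coeff_mono, coeff_mono, if_neg (by omega),
          if_neg (by omega)]
        ring
      · rw [hsk, hB, coeff_sub, coeff_add, coeff_mono, coeff_mono, if_pos rfl,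
          if_neg (by omega)]
        rcases hs with rfl | rfl <;> norm_num
    · right
      exact ⟨k, s, hs, by rw [hB]; ring⟩
    · have h1 : B = (B - C s * X ^ (k + 1)) + C s * X ^ (k + 1) := by ring
      have h2 : sgn (B - C s * X ^ (k + 1)) (k + 1) = s := by
        rw [← neg_neg s, ← h, ← hBs]
        apply sgn_congr
        intro i hi
        rw [coeff_sub, coeff_mono, if_neg (by omega), sub_zero]
      conv => rw [h1]
      have := prec_add h2 hs
      simpa using this
    · left
      exact ⟨k + 1, s, hs, by ring⟩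

lemma between_R {A B : ℤ[X]} (hP : Prec A B) (hR : RT (B - A)) : ∃ P, E A P ∧ E P B := by
  obtain ⟨k, s, hs, hD⟩ := hR
  have hB : B = A + C s * X ^ k - C s * X ^ (k + 1) := by
    have : B = A + (B - A) := by ring
    rw [this, hD]; ring
  have hDc : ∀ i, (C s * X ^ k * (1 - X) : ℤ[X]).coeff i =
      (if i = k then s else 0) - (if i = k + 1 then s else 0) := by
    intro i
    have : (C s * X ^ k * (1 - X) : ℤ[X]) = C s * X ^ k - C s * X ^ (k + 1) := by ring
    rw [this, coeff_sub, coeff_mono, coeff_mono]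
  have hsk : sgn A k = s := by
    have hB' : B = A + C s * X ^ k * (1 - X) := by rw [← hD]; ring
    rw [hB'] at hP
    refine sgn_of_prec hs (fun i hi => ?_) ?_ hP
    · rw [hDc, if_neg hi.ne, if_neg (by omega), sub_zero]
    · rw [hDc, if_pos rfl, if_neg (by omega), sub_zero]
  have hs' : (-s) = 1 ∨ (-s) = -1 := by rcases hs with rfl | rfl <;> simp
  have hcase : sgn A (k + 1) = s ∨ sgn A (k + 1) = -s := by
    rcases sgn_cases A (k + 1) with h | h <;> rcases hs with rfl | rfl <;> simp [h]
  rcases hcase with h | h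
  · -- Q = A + s X^k
    refine ⟨A + C s * X ^ k, ⟨prec_add hsk hs, Or.inl ⟨k, s, hs, by ring⟩⟩, ⟨?_, ?_⟩⟩
    · have h2 : sgn (A + C s * X ^ k) (k + 1) = -s := by
        have h3 : sgn (A + C s * X ^ k) (k + 1) = - sgn A (k + 1) :=
          sgn_succ_add_one (A := A) (m := k)
            (fun i hi => by rw [coeff_add, coeff_mono, if_neg hi.ne, add_zero]) hs
            (by rw [coeff_add, coeff_mono, if_pos rfl])
        rw [h3, h]
      have := prec_add h2 hs'
      rw [hB]
      convert this using 1
      simp only [C_neg]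
      ring
    · left
      exact ⟨k + 1, -s, hs', by rw [hB]; simp only [C_neg]; ring⟩
  · -- Q = A - s X^(k+1)
    refine ⟨A + C (-s) * X ^ (k + 1), ⟨prec_add h hs', Or.inl ⟨k + 1, -s, hs', by ring⟩⟩,
      ⟨?_, ?_⟩⟩
    · have h2 : sgn (A + C (-s) * X ^ (k + 1)) k = s := by
        rw [← hsk]
        apply sgn_congr
        intro i hi
        rw [coeff_add, coeff_mono, if_neg (by omega), add_zero]
      have := prec_add h2 hs
      rw [hB]
      convert this using 1
      simp only [C_neg]
      ring
    · left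
      exact ⟨k, s, hs, by rw [hB]; simp only [C_neg]; ring⟩

lemma between {A B : ℤ[X]} (h : E A B) : ∃ P, E A P ∧ E P B := by
  rcases h.2 with hU | hR
  · exact between_U h.1 hU
  · exact between_R h.1 hR

/-! ### Placing a non-crossing graph on an interval -/

lemma exists_split (adj : ℕ → ℕ → Prop)
    (hnc : ∀ x y z w, x < y → y < z → z < w → adj x z → adj y w → False)
    (a b : ℕ) (hab : a + 1 < b) :
    ∃ c, a < c ∧ c < b ∧ ∀ x y, a ≤ x → x < c → c < y → y ≤ b → adj x y → x = a ∧ y = b := by
  classical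
  by_cases hT : ∃ c, a < c ∧ c < b ∧ adj a c
  · let T : Finset ℕ := (Finset.range b).filter (fun c => a < c ∧ adj a c)
    have hTne : T.Nonempty := by
      obtain ⟨c, h1, h2, h3⟩ := hT
      exact ⟨c, by simp [T, h1, h2, h3]⟩
    have hmem := T.max'_mem hTne
    set c := T.max' hTne with hc
    have hmem' : c < b ∧ a < c ∧ adj a c := by simpa [T] using hmem
    refine ⟨c, hmem'.2.1, hmem'.1, ?_⟩
    intro x y hax hxc hcy hyb hxy
    rcases hax.eq_or_lt with h | h
    · subst h
      refine ⟨rfl, ?_⟩
      by_contra hne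
      have hyT : y ∈ T := by
        simp only [T, mem_filter, mem_range]
        exact ⟨lt_of_le_of_ne hyb hne, hmem'.2.1.trans hcy, hxy⟩
      have := T.le_max' y hyT
      omega
    · exact (hnc a x c y h hxc hcy hmem'.2.2 hxy).elim
  · refine ⟨a + 1, by omega, hab, ?_⟩
    intro x y hax hxc hcy hyb hxy
    have hxa : x = a := by omega
    subst hxa
    refine ⟨rfl, ?_⟩
    by_contra hne
    exact hT ⟨y, by omega, lt_of_le_of_ne hyb hne, hxy⟩

lemma place (adj : ℕ → ℕ → Prop)
    (hnc : ∀ x y z w, x < y → y < z → z < w → adj x z → adj y w → False) :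
    ∀ n a b, a < b → b - a ≤ n → ∀ A B, E A B → ∃ p : ℕ → ℤ[X], p a = A ∧ p b = B ∧
      (∀ x y, a ≤ x → x < y → y ≤ b → Prec (p x) (p y)) ∧
      (∀ x y, a ≤ x → x < y → y ≤ b → adj x y → E (p x) (p y)) := by
  intro n
  induction n with
  | zero => intro a b hab hn; omega
  | succ n ih =>
    intro a b hab hn A B hE
    by_cases h1 : b = a + 1
    · subst h1
      refine ⟨fun x => if x = a then A else B, by simp, by simp, ?_, ?_⟩
      · intro x y hx hxy hy
        have : x = a := by omega
        have hy' : y = a + 1 := by omega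
        subst this; subst hy'
        simpa using hE.1
      · intro x y hx hxy hy _
        have : x = a := by omega
        have hy' : y = a + 1 := by omega
        subst this; subst hy'
        simpa using hE
    · obtain ⟨c, hac, hcb, hc⟩ := exists_split adj hnc a b (by omega)
      obtain ⟨P, hAP, hPB⟩ := between hE
      obtain ⟨p1, h1a, h1c, h1m, h1e⟩ := ih a c hac (by omega) A P hAP
      obtain ⟨p2, h2c, h2b, h2m, h2e⟩ := ih c b hcb (by omega) P B hPB
      refine ⟨fun x => if x ≤ c then p1 x else p2 x, ?_, ?_, ?_, ?_⟩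
      · simp only [hac.le, if_true, h1a]
      · simp only [not_le.mpr hcb, if_false, h2b]
      · intro x y hx hxy hy
        by_cases hyc : y ≤ c
        · simp only [hyc, if_true, (hxy.le.trans hyc)]
          exact h1m x y hx hxy hyc
        · push Not at hyc
          simp only [not_le.mpr hyc, if_false]
          rcases lt_trichotomy x c with h | h | h
          · simp only [h.le, if_true]
            have e1 := h1m x c hx h le_rfl
            rw [h1c, ← h2c] at e1
            exact prec_trans e1 (h2m c y le_rfl hyc hy)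
          · subst h
            simp only [le_refl, if_true]
            rw [h1c, ← h2c]
            exact h2m x y le_rfl hyc hy
          · simp only [not_le.mpr h, if_false]
            exact h2m x y h.le hxy hy
      · intro x y hx hxy hy hadj
        by_cases hyc : y ≤ c
        · simp only [hyc, if_true, (hxy.le.trans hyc)]
          exact h1e x y hx hxy hyc hadj
        · push Not at hyc
          simp only [not_le.mpr hyc, if_false]
          rcases lt_trichotomy x c with h | h | h
          · obtain ⟨rfl, rfl⟩ := hc x y hx h hyc hy hadj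
            simp only [h.le, if_true]
            rw [h1a, h2b]
            exact hE
          · subst h
            simp only [le_refl, if_true]
            rw [h1c, ← h2c]
            exact h2e x y le_rfl hyc hy hadj
          · simp only [not_le.mpr h, if_false]
            exact h2e x y h.le hxy hy hadj

/-! ### A transcendental point of the unit circle -/

lemma exists_q : ∃ q : ℂ, ‖q‖ = 1 ∧ Transcendental ℤ q := by
  by_contra hcon
  push Not at hcon
  have hsub : {q : ℂ | ‖q‖ = 1} ⊆ {q : ℂ | IsAlgebraic ℤ q} := by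
    intro q hq
    have := hcon q hq
    simpa [Transcendental] using this
  have hc : {q : ℂ | ‖q‖ = 1}.Countable := (Algebraic.countable ℤ ℂ).mono hsub
  have hre : (Set.Icc (-1 : ℝ) 1).Countable := by
    refine (hc.image Complex.re).mono ?_
    intro t ht
    refine ⟨⟨t, Real.sqrt (1 - t ^ 2)⟩, ?_, rfl⟩
    have h1 : 0 ≤ 1 - t ^ 2 := by
      have := ht.1; have := ht.2; nlinarith
    show ‖(⟨t, Real.sqrt (1 - t ^ 2)⟩ : ℂ)‖ = 1
    rw [Complex.norm_def, Complex.normSq_mk, Real.mul_self_sqrt h1]
    rw [show t * t + (1 - t ^ 2) = 1 by ring, Real.sqrt_one]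
  rw [Cardinal.Real.Icc_countable_iff] at hre
  norm_num at hre

/-- The combinatorial core: a graph whose vertices are placed in a linear order without crossing
edges has an injective map to `ℂ` with all edges of length `1` or `r`. -/
lemma core {V : Type*} [Finite V] (G : SimpleGraph V) (f : V → ℕ) (hf : Function.Injective f)
    (hnc : ∀ a b x y : V, G.Adj a b → G.Adj x y → f a < f x → f x < f b → f b < f y → False)
    (q : ℂ) (hq : ‖q‖ = 1) (hqt : Transcendental ℤ q) :
    ∃ p : V → ℂ, Function.Injective p ∧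
      ∀ v w, G.Adj v w → dist (p v) (p w) = 1 ∨ dist (p v) (p w) = ‖1 - q‖ := by
  obtain ⟨N, hN⟩ : ∃ N, ∀ v, f v < N := by
    obtain ⟨N, hN⟩ := (Set.finite_range f).bddAbove
    exact ⟨N + 1, fun v => Nat.lt_succ_of_le (hN ⟨v, rfl⟩)⟩
  let adj : ℕ → ℕ → Prop := fun i j => ∃ u v : V, f u = i ∧ f v = j ∧ G.Adj u v
  have hadj : ∀ x y z w, x < y → y < z → z < w → adj x z → adj y w → False := by
    rintro x y z w hxy hyz hzw ⟨a, b, rfl, rfl, hab⟩ ⟨c, d, rfl, rfl, hcd⟩
    exact hnc a b c d hab hcd hxy hyz hzw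
  have hE : E 0 1 := by
    refine ⟨⟨0, by simp, ?_⟩, Or.inl ⟨0, 1, Or.inl rfl, by simp⟩⟩
    simp [sgn]
  obtain ⟨p, _, _, hmono, hedge⟩ := place adj hadj (N + 1) 0 (N + 1) (by omega) (by omega) 0 1 hE
  have hinj : Function.Injective (fun v => aeval q (p (f v)) : V → ℂ) := by
    intro u v huv
    have h1 : p (f u) = p (f v) := (transcendental_iff_injective.mp hqt) huv
    by_contra hne
    have hfne : f u ≠ f v := fun h => hne (hf h)
    rcases lt_or_gt_of_ne hfne with h | h
    · have := hmono (f u) (f v) (Nat.zero_le _) h (by have := hN v; omega)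
      rw [h1] at this
      exact prec_irrefl _ this
    · have := hmono (f v) (f u) (Nat.zero_le _) h (by have := hN u; omega)
      rw [h1] at this
      exact prec_irrefl _ this
  have hdist : ∀ A B : ℤ[X], E A B →
      dist (aeval q A : ℂ) (aeval q B) = 1 ∨ dist (aeval q A : ℂ) (aeval q B) = ‖1 - q‖ := by
    rintro A B ⟨_, h⟩
    rw [dist_comm, dist_eq_norm, ← map_sub]
    rcases h with ⟨k, s, hs, h⟩ | ⟨k, s, hs, h⟩
    · left
      rw [h]
      rcases hs with rfl | rfl <;> simp [hq]
    · right
      rw [h]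
      rcases hs with rfl | rfl <;> simp [hq]
  refine ⟨_, hinj, ?_⟩
  intro v w hvw
  have hfne : f v ≠ f w := fun h => hvw.ne (hf h)
  rcases lt_or_gt_of_ne hfne with h | h
  · exact hdist _ _ (hedge (f v) (f w) (Nat.zero_le _) h (by have := hN w; omega)
      ⟨v, w, rfl, rfl, hvw⟩)
  · rw [dist_comm]
    exact hdist _ _ (hedge (f w) (f v) (Nat.zero_le _) h (by have := hN v; omega)
      ⟨w, v, rfl, rfl, hvw.symm⟩)

/-! ### Chords of a circle -/

/-- Twice the signed area of the triangle `p, q, r`. -/
def orient (p q r : ℝ × ℝ) : ℝ :=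
  (q.1 - p.1) * (r.2 - p.2) - (q.2 - p.2) * (r.1 - p.1)

lemma orient_pos {α β γ : ℝ} (h1 : α < β) (h2 : β < γ) (h3 : γ < α + 2 * Real.pi) :
    0 < orient (Real.cos α, Real.sin α) (Real.cos β, Real.sin β) (Real.cos γ, Real.sin γ) := by
  have key : orient (Real.cos α, Real.sin α) (Real.cos β, Real.sin β) (Real.cos γ, Real.sin γ) =
      4 * Real.sin ((β - α) / 2) * Real.sin ((γ - β) / 2) * Real.sin ((γ - α) / 2) := by
    unfold orient
    simp only
    obtain ⟨a, rfl⟩ : ∃ a, α = 2 * a := ⟨α / 2, by ring⟩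
    obtain ⟨x, rfl⟩ : ∃ x, β = 2 * a + 2 * x := ⟨(β - 2 * a) / 2, by ring⟩
    obtain ⟨y, rfl⟩ : ∃ y, γ = 2 * a + 2 * x + 2 * y := ⟨(γ - 2 * a - 2 * x) / 2, by ring⟩
    have e1 : (2 * a + 2 * x - 2 * a) / 2 = x := by ring
    have e2 : (2 * a + 2 * x + 2 * y - (2 * a + 2 * x)) / 2 = y := by ring
    have e3 : (2 * a + 2 * x + 2 * y - 2 * a) / 2 = x + y := by ring
    rw [e1, e2, e3]
    have hexp : (Real.cos (2 * a + 2 * x) - Real.cos (2 * a)) *
        (Real.sin (2 * a + 2 * x + 2 * y) - Real.sin (2 * a)) -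
        (Real.sin (2 * a + 2 * x) - Real.sin (2 * a)) *
        (Real.cos (2 * a + 2 * x + 2 * y) - Real.cos (2 * a)) =
        Real.sin (2 * y) + Real.sin (2 * x) - Real.sin (2 * x + 2 * y) := by
      have h1 : Real.sin (2 * y) = Real.sin ((2 * a + 2 * x + 2 * y) - (2 * a + 2 * x)) := by
        congr 1; ring
      have h2 : Real.sin (2 * x) = Real.sin ((2 * a + 2 * x) - 2 * a) := by congr 1; ring
      have h3 : Real.sin (2 * x + 2 * y) = Real.sin ((2 * a + 2 * x + 2 * y) - 2 * a) := by
        congr 1; ring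
      rw [h1, h2, h3, Real.sin_sub, Real.sin_sub, Real.sin_sub]
      ring
    rw [hexp, Real.sin_add, Real.sin_two_mul, Real.sin_two_mul, Real.cos_two_mul,
      Real.cos_two_mul, Real.sin_add]
    have hx := Real.sin_sq_add_cos_sq x
    have hy := Real.sin_sq_add_cos_sq y
    have hx' : Real.cos x ^ 2 = 1 - Real.sin x ^ 2 := by linarith
    have hy' : Real.cos y ^ 2 = 1 - Real.sin y ^ 2 := by linarith
    rw [hx', hy']
    ring
  rw [key]
  have s1 : 0 < Real.sin ((β - α) / 2) :=
    Real.sin_pos_of_pos_of_lt_pi (by linarith) (by linarith)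
  have s2 : 0 < Real.sin ((γ - β) / 2) :=
    Real.sin_pos_of_pos_of_lt_pi (by linarith) (by linarith)
  have s3 : 0 < Real.sin ((γ - α) / 2) :=
    Real.sin_pos_of_pos_of_lt_pi (by linarith) (by linarith)
  positivity

/-- The point of the plane at angle `θ` on the unit circle. -/
noncomputable def pt (θ : ℝ) : EuclideanSpace ℝ (Fin 2) := !₂[Real.cos θ, Real.sin θ]

lemma chords_meet {α ξ β η : ℝ} (h1 : α < ξ) (h2 : ξ < β) (h3 : β < η)
    (h4 : η < α + 2 * Real.pi) :
    ¬ Disjoint (segment ℝ (pt α) (pt β)) (segment ℝ (pt ξ) (pt η)) := by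
  have u : 0 < orient (Real.cos α, Real.sin α) (Real.cos β, Real.sin β) (Real.cos η, Real.sin η) :=
    orient_pos (by linarith) h3 h4
  have v : 0 < orient (Real.cos α, Real.sin α) (Real.cos ξ, Real.sin ξ) (Real.cos β, Real.sin β) :=
    orient_pos h1 h2 (by linarith)
  have u' : 0 < orient (Real.cos ξ, Real.sin ξ) (Real.cos β, Real.sin β) (Real.cos η, Real.sin η) :=
    orient_pos h2 h3 (by linarith)
  have v' : 0 < orient (Real.cos α, Real.sin α) (Real.cos ξ, Real.sin ξ) (Real.cos η, Real.sin η) :=
    orient_pos h1 (by linarith) h4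
  set U := orient (Real.cos α, Real.sin α) (Real.cos β, Real.sin β) (Real.cos η, Real.sin η)
    with hU
  set W := orient (Real.cos α, Real.sin α) (Real.cos ξ, Real.sin ξ) (Real.cos β, Real.sin β)
    with hW
  set U' := orient (Real.cos ξ, Real.sin ξ) (Real.cos β, Real.sin β) (Real.cos η, Real.sin η)
    with hU'
  set W' := orient (Real.cos α, Real.sin α) (Real.cos ξ, Real.sin ξ) (Real.cos η, Real.sin η)
    with hW'
  have hsum : U + W = U' + W' := by
    rw [hU, hW, hU', hW']
    unfold orient
    simp only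
    ring
  have hpos : 0 < U + W := by linarith
  have hpos' : 0 < U' + W' := by linarith
  rw [Set.not_disjoint_iff]
  refine ⟨(U / (U + W)) • pt ξ + (W / (U + W)) • pt η, ?_, ?_⟩
  · refine ⟨U' / (U' + W'), W' / (U' + W'), by positivity, by positivity, ?_, ?_⟩
    · field_simp
    · rw [← hsum]
      ext i
      have key0 : U' * Real.cos α + W' * Real.cos β = U * Real.cos ξ + W * Real.cos η := by
        rw [hU, hW, hU', hW']
        unfold orient
        simp only
        ring
      have key1 : U' * Real.sin α + W' * Real.sin β = U * Real.sin ξ + W * Real.sin η := by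
        rw [hU, hW, hU', hW']
        unfold orient
        simp only
        ring
      fin_cases i
      · simp [pt]
        field_simp
        linarith
      · simp [pt]
        field_simp
        linarith
  · refine ⟨U / (U + W), W / (U + W), by positivity, by positivity, ?_, rfl⟩
    field_simp

lemma exists_angle (z : EuclideanSpace ℝ (Fin 2)) (hz : ‖z‖ = 1) :
    ∃ θ : ℝ, -Real.pi < θ ∧ θ ≤ Real.pi ∧ z = pt θ := by
  refine ⟨Complex.arg ⟨z 0, z 1⟩, Complex.neg_pi_lt_arg _, Complex.arg_le_pi _, ?_⟩
  have hn : ‖(⟨z 0, z 1⟩ : ℂ)‖ = 1 := by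
    rw [Complex.norm_def, Complex.normSq_mk]
    rw [EuclideanSpace.norm_eq] at hz
    rw [← hz]
    congr 1
    simp [Fin.sum_univ_two]
    ring
  have hne : (⟨z 0, z 1⟩ : ℂ) ≠ 0 := by
    intro h
    rw [h] at hn
    simp at hn
  ext i
  fin_cases i
  · simp [pt, Complex.cos_arg hne, hn]
  · simp [pt, Complex.sin_arg, hn]

/-- From the circle to a linear order. -/
lemma outerplanar_order {V : Type*} [Finite V] (G : SimpleGraph V) (hG : IsOuterplanar G) :
    ∃ f : V → ℕ, Function.Injective f ∧
      ∀ a b x y : V, G.Adj a b → G.Adj x y → f a < f x → f x < f b → f b < f y → False := by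
  classical
  have : Fintype V := Fintype.ofFinite V
  obtain ⟨c, hinj, hnorm, hdisj⟩ := hG
  choose θ h1 h2 h3 using fun v => exists_angle (c v) (hnorm v)
  have hθ : Function.Injective θ := by
    intro u v huv
    apply hinj
    rw [h3 u, h3 v, huv]
  let f : V → ℕ := fun v => (Finset.univ.filter (fun w => θ w < θ v)).card
  have hlt : ∀ u v, θ u < θ v → f u < f v := by
    intro u v huv
    apply Finset.card_lt_card
    rw [Finset.ssubset_iff_of_subset]
    · exact ⟨u, by simp [huv], by simp⟩
    · intro w hw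
      simp only [Finset.mem_filter, Finset.mem_univ, true_and] at hw ⊢
      exact hw.trans huv
  have hlt' : ∀ u v, f u < f v → θ u < θ v := by
    intro u v huv
    by_contra hcon
    push Not at hcon
    rcases hcon.eq_or_lt with h | h
    · rw [hθ h] at huv
      exact lt_irrefl _ huv
    · exact absurd (hlt v u h) (by omega)
  refine ⟨f, ?_, ?_⟩
  · intro u v huv
    by_contra hne
    have : θ u ≠ θ v := fun h => hne (hθ h)
    rcases lt_or_gt_of_ne this with h | h
    · have := hlt u v h; omega
    · have := hlt v u h; omega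
  · intro a b x y hab hxy hax hxb hby
    have e1 := hlt' _ _ hax
    have e2 := hlt' _ _ hxb
    have e3 := hlt' _ _ hby
    have n1 : a ≠ x := fun h => by rw [h] at e1; exact lt_irrefl _ e1
    have n2 : a ≠ y := fun h => by
      rw [h] at e1; exact lt_irrefl _ (e1.trans (e2.trans e3))
    have n3 : b ≠ x := fun h => by rw [h] at e2; exact lt_irrefl _ e2
    have n4 : b ≠ y := fun h => by rw [h] at e3; exact lt_irrefl _ e3
    have hd := hdisj a b x y hab hxy n1 n2 n3 n4
    rw [h3 a, h3 b, h3 x, h3 y] at hd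
    refine chords_meet e1 e2 e3 ?_ hd
    have := h2 y
    have := h1 a
    linarith

/-- **Every finite outerplanar graph has degenerate distance number at most two.** -/
theorem result {V : Type*} [Finite V] (G : SimpleGraph V) (hG : IsOuterplanar G) :
    ddn G ≤ 2 := by
  obtain ⟨f, hf, hnc⟩ := outerplanar_order G hG
  obtain ⟨q, hq, hqt⟩ := exists_q
  obtain ⟨p, hp, hd⟩ := core G f hf hnc q hq hqt
  apply Nat.sInf_le
  refine ⟨fun v => Complex.orthonormalBasisOneI.repr (p v),
    Complex.orthonormalBasisOneI.repr.injective.comp hp, ?_⟩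
  have hsub : edgeLengths G (fun v => Complex.orthonormalBasisOneI.repr (p v)) ⊆
      ({1, ‖1 - q‖} : Set ℝ) := by
    rintro d ⟨v, w, hvw, rfl⟩
    simp only [LinearIsometryEquiv.dist_map]
    rcases hd v w hvw with h | h
    · left; exact h
    · right; exact h
  calc (edgeLengths G (fun v => Complex.orthonormalBasisOneI.repr (p v))).encard
      ≤ ({1, ‖1 - q‖} : Set ℝ).encard := Set.encard_le_encard hsub
    _ ≤ ({‖1 - q‖} : Set ℝ).encard + 1 := Set.encard_insert_le _ _
    _ = 2 := by rw [Set.encard_singleton]; norm_num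

end Pool.Agent.Results.MP_aa6a81_co.OuterplanarTwo
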